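import Pool.Agent.H96.FrogC

set_option autoImplicit false
open MeasureTheory ProbabilityTheory Filter Topology
open scoped ENNReal
open Pool.Agent.H96.Frog

namespace Pool.Agent.Results.MP_964988_pr.BelowBRW

/-- For every drift `α` in `[√3/2, 1)` there is a level `w0 < g(α)` such that, in every dimension
`d ≥ 2` and for every `w ≥ w0`, the frog model `FM(d, π_{w,α})` visits the origin only finitely
often almost surely. Hence every critical curve satisfies `f_d(α) ≤ w0 < g(α)`, and `f_d(α)` does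
not converge to `g(α)`. -/
theorem result (α : unitInterval) (hα : √3 / 2 ≤ (α : ℝ)) (hα1 : (α : ℝ) < 1) :
    ∃ w0 : ℝ, w0 < g α ∧
      (∀ (d : ℕ) (hd : 2 ≤ d) (w : unitInterval), w0 ≤ w →
        ∀ᵐ ω ∂(law d hd w α), {t : ℕ | Visit ω t}.Finite) ∧
      (∀ f : ℕ → unitInterval → unitInterval,
        (∀ (d : ℕ) (hd : 2 ≤ d), IsCriticalCurve d hd (f d)) →
        (∀ d : ℕ, 2 ≤ d → (f d α : ℝ) ≤ w0) ∧
          ¬ Tendsto (fun d => (f d α : ℝ)) atTop (𝓝 (g α))) := by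
  have h3 : (0:ℝ) < √3 := Real.sqrt_pos.mpr (by norm_num)
  have hα0 : (0:ℝ) < α := by linarith
  set σ : ℝ := √(1 - (α:ℝ)^2) with hσ
  have hpos : 0 < 1 - (α:ℝ)^2 := by nlinarith
  have hσ0 : 0 < σ := Real.sqrt_pos.mpr hpos
  have hσsq : σ^2 = 1 - (α:ℝ)^2 := Real.sq_sqrt hpos.le
  have hσ2 : σ ≤ 1/2 := by
    have h4 : (3:ℝ)/4 ≤ (α:ℝ)^2 := by
      have : (√3/2)^2 ≤ (α:ℝ)^2 := pow_le_pow_left₀ (by positivity) hα 2
      rw [div_pow, Real.sq_sqrt (by norm_num)] at this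
      linarith
    nlinarith
  have hg : g α = (2 * (1 - σ))⁻¹ := by
    unfold g
    rw [if_neg hα0.ne', min_eq_right]
    refine inv_le_one_of_one_le₀ ?_
    linarith
  set δ : ℝ := σ/4 with hδ
  have hδ0 : 0 < δ := by positivity
  have hδ1 : δ < 1 := by linarith
  set θ : ℝ := σ/(1+α) with hθ
  have hα1' : (0:ℝ) < 1 + α := by linarith
  have hθ0 : 0 < θ := div_pos hσ0 hα1'
  have hs1 : (1 + (α:ℝ)) * θ = σ := by rw [hθ]; field_simp
  have hs2 : (1 - (α:ℝ)) * θ⁻¹ = σ := by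
    rw [hθ, inv_div, mul_div_assoc', div_eq_iff hσ0.ne', ← sq, hσsq]; ring
  -- thresholds
  have hA : 0 < 1 - σ + σ * δ := by nlinarith
  have hB : 0 < 2 - 3/2 * σ * (1 - δ) := by nlinarith
  set w1 : ℝ := (2 * (1 - σ + σ * δ))⁻¹ with hw1
  set w2 : ℝ := (1 + δ) / (2 - 3/2 * σ * (1 - δ)) with hw2
  have hw1g : w1 < g α := by
    rw [hg, hw1]
    refine inv_strictAnti₀ (by linarith) ?_
    nlinarith
  have hw2g : w2 < g α := by
    rw [hg, hw2, div_lt_iff₀ hB, inv_mul_eq_div, lt_div_iff₀ (by linarith)]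
    rw [hδ]
    nlinarith [hσ0, mul_pos hσ0 hσ0]
  set w0 : ℝ := (max w1 w2 + g α) / 2 with hw0
  have hmax : max w1 w2 < g α := max_lt hw1g hw2g
  have hw0g : w0 < g α := by rw [hw0]; linarith
  have hw0max : max w1 w2 < w0 := by rw [hw0]; linarith
  have hw1pos : 0 < w1 := by rw [hw1]; positivity
  have hw0pos : 0 < w0 := hw1pos.trans_le ((le_max_left _ _).trans hw0max.le)
  have htrans : ∀ (d : ℕ) (hd : 2 ≤ d) (w : unitInterval), w0 ≤ w →
        ∀ᵐ ω ∂(law d hd w α), {t : ℕ | Visit ω t}.Finite := by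
    intro d hd w hw
    have a1 : w1 < w := ((le_max_left _ _).trans_lt hw0max).trans_le hw
    have a2 : w2 < w := ((le_max_right _ _).trans_lt hw0max).trans_le hw
    have b1 : 1 < 2 * (w:ℝ) * (1 - σ + σ * δ) := by
      rw [hw1, inv_lt_iff_one_lt_mul₀ (by linarith)] at a1
      linarith
    have b2 : 1 + δ < (w:ℝ) * (2 - 3/2 * σ * (1 - δ)) := by
      rwa [hw2, div_lt_iff₀ hB] at a2
    have c1 : 2 * (1 - (w:ℝ)) + 2 * (1 - δ) * w * σ < 1 := by nlinarith
    have c2 : 2 * (1 - (w:ℝ)) + 3/2 * (1 - δ) * w * σ < 1 - δ := by nlinarith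
    have hd1 : 0 < 1 - δ := by linarith
    refine finite_visits hd (θ := θ) (δ := δ)
      (κ := max (2 * (1 - (w:ℝ)) + 2 * (1 - δ) * w * σ)
        ((2 * (1 - (w:ℝ)) + 3/2 * (1 - δ) * w * σ) / (1 - δ))) w α hθ0 hδ0.le hδ1 ?_ hs1 hs2
      (le_max_left _ _) ?_
    · refine max_lt c1 ?_
      rw [div_lt_one hd1]
      exact c2
    · have := le_max_right (2 * (1 - (w:ℝ)) + 2 * (1 - δ) * w * σ)
        ((2 * (1 - (w:ℝ)) + 3/2 * (1 - δ) * w * σ) / (1 - δ))
      calc 2 * (1 - (w:ℝ)) + 3/2 * (1 - δ) * w * σ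
          = ((2 * (1 - (w:ℝ)) + 3/2 * (1 - δ) * w * σ) / (1 - δ)) * (1 - δ) := by
            rw [div_mul_cancel₀ _ hd1.ne']
        _ ≤ _ := mul_le_mul_of_nonneg_right this hd1.le
  refine ⟨w0, hw0g, htrans, ?_⟩
  intro f hf
  have hle : ∀ d : ℕ, 2 ≤ d → (f d α : ℝ) ≤ w0 := by
    intro d hd
    by_contra hcon
    push Not at hcon
    have hmem : (w0 + f d α) / 2 ∈ Set.Icc (0:ℝ) 1 := by
      have := (f d α).2.2
      constructor <;> linarith
    set w : unitInterval := ⟨(w0 + f d α) / 2, hmem⟩ with hw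
    have h5 : w < f d α := by
      rw [← Subtype.coe_lt_coe]
      change (w0 + f d α) / 2 < (f d α : ℝ)
      linarith
    have h6 : w0 ≤ (w : ℝ) := by
      change w0 ≤ (w0 + f d α) / 2
      linarith
    exact not_recurrent_of_finite hd w α (htrans d hd w h6) (((hf d hd).2 w α).1 h5)
  refine ⟨hle, fun ht => ?_⟩
  have : g α ≤ w0 := le_of_tendsto ht (eventually_atTop.mpr ⟨2, hle⟩)
  linarith

end Pool.Agent.Results.MP_964988_pr.BelowBRW
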